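import Pool.Agent.H29.ENR.Stmts3

/-!
Row LIR of board enr (MP_d15c96_al): LIF in a noncommutative ring.
-/

set_option autoImplicit false

namespace Pool.ENR

theorem LIR_step (B : Type) [Ring B] (p : ℕ) (x : B) (m : ℕ)
    (h : ∃ (t : ℕ) (y : B), x ^ t * (x ^ m - 1) = p * y) (i : ℕ) :
    ∃ (t : ℕ) (y : B), x ^ t * (x ^ (m * p ^ i) - 1) = (p : B) ^ (i + 1) * y := by
  induction i with
  | zero =>
    obtain ⟨t, y, e⟩ := h
    refine ⟨t, y, ?_⟩
    rw [pow_zero, mul_one, zero_add, pow_one, e]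
  | succ i ih =>
    obtain ⟨t, y, e⟩ := ih
    set W : B := x ^ (m * p ^ i) with hW
    set G : B := ∑ j ∈ Finset.range p, ∑ l ∈ Finset.range j, W ^ l with hG
    have hsum : ∑ j ∈ Finset.range p, W ^ j = (p : B) + (W - 1) * G := by
      rw [hG, Finset.mul_sum]
      have h1 : ∀ j ∈ Finset.range p, W ^ j = 1 + (W - 1) * ∑ l ∈ Finset.range j, W ^ l := by
        intro j _
        rw [mul_geom_sum]
        abel
      rw [Finset.sum_congr rfl h1, Finset.sum_add_distrib]
      simp
    have hpow : W ^ p - 1 = (W - 1) * ((p : B) + (W - 1) * G) := by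
      rw [← hsum, mul_geom_sum]
    have hxW : Commute (x ^ t) (W - 1) := by
      apply Commute.sub_right
      · rw [hW]
        exact (Commute.refl x).pow_pow _ _
      · exact Commute.one_right _
    have hP : ∀ z : B, z * (p : B) = (p : B) * z := fun z => (Nat.cast_comm p z).symm
    set Z : B := x ^ t + (p : B) ^ i * (y * G) with hZ
    refine ⟨t + t, y * Z, ?_⟩
    have hexp : x ^ (m * p ^ (i + 1)) = W ^ p := by
      rw [hW, ← pow_mul]
      congr 1
      ring
    have h2 : x ^ t * ((p : B) + (W - 1) * G) = (p : B) * Z := by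
      rw [mul_add, hP, ← mul_assoc, e, hZ, mul_add, pow_succ' (p : B) i]
      simp only [mul_assoc]
    calc x ^ (t + t) * (x ^ (m * p ^ (i + 1)) - 1)
        = x ^ t * (x ^ t * ((W - 1) * ((p : B) + (W - 1) * G))) := by
          rw [hexp, hpow, pow_add, mul_assoc]
      _ = (x ^ t * (W - 1)) * (x ^ t * ((p : B) + (W - 1) * G)) := by
          have h3 : x ^ t * ((W - 1) * ((p : B) + (W - 1) * G)) =
              (W - 1) * (x ^ t * ((p : B) + (W - 1) * G)) := by
            rw [← mul_assoc, hxW.eq, mul_assoc]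
          rw [h3, ← mul_assoc]
      _ = ((p : B) ^ (i + 1) * y) * ((p : B) * Z) := by rw [e, h2]
      _ = (p : B) ^ (i + 1 + 1) * (y * Z) := by
          rw [mul_assoc, ← mul_assoc y, hP, pow_succ (p : B) (i + 1)]
          simp only [mul_assoc]

theorem lir_thm : LIRStmt := by
  intro B _ p c x t m _ hc h0 h
  obtain ⟨y, hy⟩ := h
  obtain ⟨t', y', e⟩ := LIR_step B p x m ⟨t, y, hy⟩ (c - 1)
  have hc' : c - 1 + 1 = c := by omega
  rw [hc', h0, zero_mul, mul_sub, mul_one, sub_eq_zero] at e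
  exact ⟨t', by rw [pow_add, e]⟩

end Pool.ENR
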