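import Pool.Agent.H36.ENR.Stmts2

/-!
Row SE3 of board enr (MP_d15c96_al): the section `TT F / UU F`.
-/

set_option autoImplicit false

namespace Pool.ENR

open Pool.Agent.H81.ENG Pool.Agent.H55.NEU

theorem se3_mem_TT {F : Type} [Field F] {M : SL2 F} : pr M ∈ TT F ↔ M 1 0 = 0 := by
  constructor
  · rintro ⟨N, hN, h⟩
    obtain ⟨r, -, he⟩ := pr_eq_iff.1 h
    rw [he 1 0, hN, mul_zero]
  · intro h
    exact ⟨M, h, rfl⟩

theorem se3_form {F : Type} [Field F] (b : F) (ψ : F ≃+* F) (M : SL2 F) :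
    ∃ N : SL2 F, (MulAut.conj (pr (uu b)) * ee 1 ψ) (pr M) = pr N ∧
      N 1 0 = ψ (M 1 0) ∧ N 0 0 = ψ (M 0 0) + b * ψ (M 1 0) ∧
      N 1 1 = ψ (M 1 1) - b * ψ (M 1 0) := by
  refine ⟨uu b * EE 1 ψ M * (uu b)⁻¹, ?_, ?_, ?_, ?_⟩
  · rw [MulAut.mul_apply, ee_pr, MulAut.conj_apply, map_mul, map_mul, map_inv]
  · rw [uu_inv, mul_10, mul_10, mul_11]
    change (0 * ψ (M 0 0) + 1 * ((((1 : Fˣ)⁻¹ : Fˣ) : F) * ψ (M 1 0))) * 1 +
      (0 * (((1 : Fˣ) : F) * ψ (M 0 1)) + 1 * ψ (M 1 1)) * 0 = ψ (M 1 0)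
    rw [inv_one, Units.val_one]
    ring
  · rw [uu_inv, mul_00, mul_00, mul_01]
    change (1 * ψ (M 0 0) + b * ((((1 : Fˣ)⁻¹ : Fˣ) : F) * ψ (M 1 0))) * 1 +
      (1 * (((1 : Fˣ) : F) * ψ (M 0 1)) + b * ψ (M 1 1)) * 0 = ψ (M 0 0) + b * ψ (M 1 0)
    rw [inv_one, Units.val_one]
    ring
  · rw [uu_inv, mul_11, mul_10, mul_11]
    change (0 * ψ (M 0 0) + 1 * ((((1 : Fˣ)⁻¹ : Fˣ) : F) * ψ (M 1 0))) * -b +
      (0 * (((1 : Fˣ) : F) * ψ (M 0 1)) + 1 * ψ (M 1 1)) * 1 = ψ (M 1 1) - b * ψ (M 1 0)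
    rw [inv_one, Units.val_one]
    ring

theorem se3_thm (hPOW : POWStmt) : SE3Stmt := by
  intro F _ _ p f m _ φ b hf hq hφ
  have hmap0 : ∀ x : F, φ x = 0 ↔ x = 0 := fun x => map_eq_zero_iff φ φ.injective
  have hle : UU F ≤ TT F := by
    rintro _ ⟨x, rfl⟩
    exact ⟨uu x, rfl, rfl⟩
  refine ⟨TT F, UU F, ?_, ?_, hle, ?_, ?_, ?_, ?_⟩
  · intro g
    obtain ⟨M, rfl⟩ := pr_surj g
    obtain ⟨N, h1, h2, -, -⟩ := se3_form b φ M
    rw [h1, se3_mem_TT, se3_mem_TT, h2, hmap0]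
  · intro g
    obtain ⟨M, rfl⟩ := pr_surj g
    obtain ⟨N, h1, h2, h3, h4⟩ := se3_form b φ M
    rw [h1, pr_mem_UU, pr_mem_UU, h2, h3, h4, hmap0]
    constructor
    · rintro ⟨e1, e2⟩
      refine ⟨e1, ?_⟩
      rw [e1, e2, map_zero]
      ring
    · rintro ⟨e1, e2⟩
      refine ⟨e1, ?_⟩
      rw [e1, map_zero, mul_zero, add_zero, sub_zero] at e2
      exact φ.injective e2
  · rintro _ ⟨M, hM, rfl⟩ _ ⟨x, rfl⟩
    rw [← map_inv, ← map_mul, ← map_mul, conj_uu, pr_mem_UU]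
    simp only [mk2_00, mk2_10, mk2_11, hM]
    constructor <;> ring
  · obtain ⟨Q, hQ⟩ := sylow_of_card hf hq (UU F) card_UU
    intro hd
    have h1 : p ∣ (UU F).index := by
      rw [← Subgroup.relIndex_mul_index hle]
      exact hd.mul_right _
    rw [← hQ] at h1
    exact Q.not_dvd_index h1
  · intro h0
    have h1 : (UU F).relIndex (TT F) ∣ (UU F).index := by
      rw [← Subgroup.relIndex_mul_index hle]
      exact dvd_mul_right _ _
    rw [h0, zero_dvd_iff] at h1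
    exact Subgroup.index_ne_zero_of_finite h1
  · by_contra hcon
    push Not at hcon
    apply hφ
    apply eq_one_of_sign
    intro t
    by_cases ht : t = 0
    · left
      rw [ht, map_zero]
    · have h1 := hcon (pr (hh (Units.mk0 t ht))) (se3_mem_TT.2 rfl)
      rw [hPOW F φ b (p ^ m)] at h1
      obtain ⟨N, e1, e2, e3, e4⟩ := se3_form (∑ l ∈ Finset.range (p ^ m), (φ ^ l) b)
        (φ ^ (p ^ m)) (hh (Units.mk0 t ht))
      rw [e1, ← map_inv, ← map_mul, pr_mem_UU] at h1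
      have h2 := h1.2
      have c10 : (hh (Units.mk0 t ht)) 1 0 = 0 := rfl
      have c00 : (hh (Units.mk0 t ht)) 0 0 = t := rfl
      have c11 : (hh (Units.mk0 t ht)) 1 1 = t⁻¹ := rfl
      rw [c10, map_zero] at e2
      rw [c10, c00, map_zero, mul_zero, add_zero] at e3
      rw [c10, c11, map_zero, mul_zero, sub_zero, map_inv₀] at e4
      have hinv : (hh (Units.mk0 t ht))⁻¹ = mk2 t⁻¹ 0 0 t (by rw [inv_mul_cancel₀ ht]; ring) := by
        unfold hh
        rw [mk2_inv]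
        apply mk2_congr
        · rfl
        · exact neg_zero
        · exact neg_zero
        · rfl
      rw [hinv, mul_00, mul_11, mk2_00, mk2_10, mk2_01, mk2_11, e2, e3, e4] at h2
      have h3 : (φ ^ p ^ m) t ≠ 0 := by
        intro h
        exact ht ((map_eq_zero_iff _ (φ ^ p ^ m).injective).1 h)
      have h4 : ((φ ^ p ^ m) t - t) * ((φ ^ p ^ m) t + t) = 0 := by
        field_simp at h2
        linear_combination h2
      rcases mul_eq_zero.1 h4 with h5 | h5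
      · left
        exact sub_eq_zero.1 h5
      · right
        exact eq_neg_of_add_eq_zero_left h5

end Pool.ENR
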